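import Pool.Agent.H947R2.DS.Stubs

/-!
Task COV: covering.
-/

set_option autoImplicit false
open Finset
open scoped Pointwise

namespace H947DS

/-- the box -/
noncomputable def COV_box {n : ℕ} (x : Fin n → ℤ) : Finset (Fin n → ℤ) :=
  Fintype.piFinset (fun i => Icc (min 0 (x i)) (max 0 (x i)))

theorem COV_card_box {n : ℕ} (x : Fin n → ℤ) :
    ((COV_box x).card : ℝ) = ∏ i, (|(x i : ℝ)| + 1) := by
  unfold COV_box
  rw [Fintype.card_piFinset]
  push_cast
  refine prod_congr rfl (fun i _ => ?_)
  rw [Int.card_Icc]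
  have h : (max 0 (x i) + 1 - min 0 (x i)) = |x i| + 1 := by
    rcases le_total 0 (x i) with h | h
    · rw [max_eq_right h, min_eq_left h, abs_of_nonneg h]; ring
    · rw [max_eq_left h, min_eq_right h, abs_of_nonpos h]; ring
  rw [h]
  have h2 : (((|x i| + 1).toNat : ℤ) : ℝ) = ((|x i| + 1 : ℤ) : ℝ) := by
    rw [Int.toNat_of_nonneg (by positivity)]
  have h3 : (((|x i| + 1).toNat : ℤ) : ℝ) = ((|x i| + 1).toNat : ℝ) := by norm_cast
  rw [← h3, h2]
  push_cast
  rfl

/-- the centres -/
noncomputable def COV_D {n : ℕ} (x : Fin n → ℤ) : Finset (Fin n → ℤ) :=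
  Fintype.piFinset (fun i => {-(|x i| - |x i| / 2), 0, |x i| - |x i| / 2})

theorem COV_card_D {n : ℕ} (x : Fin n → ℤ) : ((COV_D x).card : ℝ) ≤ ((2 : ℝ) ^ (nzZ x)) ^ 2 := by
  have h1 : (COV_D x).card ≤ 4 ^ (nzZ x) := by
    unfold COV_D nzZ
    rw [Fintype.card_piFinset]
    calc ∏ i, (({-(|x i| - |x i| / 2), 0, |x i| - |x i| / 2} : Finset ℤ)).card
        ≤ ∏ i, (if x i ≠ 0 then 4 else 1) := by
          refine prod_le_prod' (fun i _ => ?_)
          by_cases h : x i = 0
          · rw [if_neg (by simpa using h), h]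
            simp
          · rw [if_pos h]
            exact (card_le_three).trans (by norm_num)
      _ = 4 ^ (univ.filter (fun i => x i ≠ 0)).card := by
          rw [prod_ite, prod_const_one, mul_one, prod_const]
  calc ((COV_D x).card : ℝ) ≤ ((4 ^ (nzZ x) : ℕ) : ℝ) := by exact_mod_cast h1
    _ = ((2 : ℝ) ^ (nzZ x)) ^ 2 := by
        push_cast
        rw [← pow_mul, mul_comm, pow_mul]
        norm_num

/-- task COV -/
theorem COV_proof : St_COV := by
  intro n S K x hS hBA hK hx hnz hcard
  have hSpos : (0 : ℝ) < S.card := by exact_mod_cast hS.card_pos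
  have hSS : (0 : ℝ) < (S + S).card := by exact_mod_cast (hS.add hS).card_pos
  have hK0 : 0 < K := by
    by_contra hcon
    push Not at hcon
    have := mul_nonpos_of_nonpos_of_nonneg hcon hSpos.le
    linarith
  have hBS : COV_box x ⊆ S := by
    intro y hy
    apply hBA x hx y
    intro i
    unfold COV_box at hy
    rw [Fintype.mem_piFinset] at hy
    have := mem_Icc.mp (hy i)
    rcases le_total 0 (x i) with h | h
    · rw [max_eq_right h, min_eq_left h] at this
      exact Or.inl this
    · rw [max_eq_left h, min_eq_right h] at this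
      exact Or.inr this
  have hBne : (COV_box x).Nonempty := by
    refine ⟨0, ?_⟩
    unfold COV_box
    rw [Fintype.mem_piFinset]
    intro i
    rw [mem_Icc]
    exact ⟨min_le_left _ _, le_max_left _ _⟩
  have hKB : ((S + COV_box x).card : ℝ) ≤ 256 * K ^ 8 * (COV_box x).card := by
    calc ((S + COV_box x).card : ℝ) ≤ (S + S).card := by
          exact_mod_cast card_le_card (add_subset_add_left hBS)
      _ ≤ K * S.card := hK
      _ ≤ K * (256 * K ^ 7 * ∏ i, (|(x i : ℝ)| + 1)) := by gcongr
      _ = 256 * K ^ 8 * (COV_box x).card := by rw [COV_card_box]; ring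
  obtain ⟨F, hFS, hFc, hcov⟩ := ruzsa_covering_add hBne hKB
  refine ⟨F + COV_D x, ?_, ?_⟩
  · have h1 : ((F + COV_D x).card : ℝ) ≤ F.card * (COV_D x).card := by
      exact_mod_cast card_add_le
    have h2 := COV_card_D x
    have h3 : ((2 : ℝ) ^ (nzZ x)) ^ 2 ≤ (2 * K) ^ 2 := by
      apply pow_le_pow_left₀ (by positivity) hnz
    calc ((F + COV_D x).card : ℝ) ≤ F.card * (COV_D x).card := h1
      _ ≤ (256 * K ^ 8) * (2 * K) ^ 2 := by
          apply mul_le_mul hFc (h2.trans h3) (by positivity) (by positivity)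
      _ = 1024 * K ^ 10 := by ring
  · intro s hs
    obtain ⟨f, hf, z, hz, rfl⟩ := mem_add.mp (hcov hs)
    obtain ⟨b, hb, b', hb', rfl⟩ := mem_sub.mp hz
    unfold COV_box at hb hb'
    rw [Fintype.mem_piFinset] at hb hb'
    have hzi : ∀ i, -|x i| ≤ b i - b' i ∧ b i - b' i ≤ |x i| := by
      intro i
      have h1 := mem_Icc.mp (hb i)
      have h2 := mem_Icc.mp (hb' i)
      rcases le_total 0 (x i) with h | h
      · rw [max_eq_right h, min_eq_left h] at h1 h2
        rw [abs_of_nonneg h]
        omega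
      · rw [max_eq_left h, min_eq_right h] at h1 h2
        rw [abs_of_nonpos h]
        omega
    have hc : ∀ i, ∃ c ∈ ({-(|x i| - |x i| / 2), 0, |x i| - |x i| / 2} : Finset ℤ),
        |(b i - b' i) - c| ≤ |x i| / 2 := by
      intro i
      obtain ⟨h1, h2⟩ := hzi i
      have h0 : 0 ≤ |x i| := abs_nonneg _
      generalize |x i| = a at h0 h1 h2
      generalize b i - b' i = z at h1 h2
      by_cases h3 : z > a / 2
      · exact ⟨a - a / 2, by simp, abs_le.mpr ⟨by omega, by omega⟩⟩
      · by_cases h4 : z < -(a / 2)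
        · exact ⟨-(a - a / 2), by simp, abs_le.mpr ⟨by omega, by omega⟩⟩
        · exact ⟨0, by simp, abs_le.mpr ⟨by omega, by omega⟩⟩
    choose c hc1 hc2 using hc
    refine ⟨f + c, add_mem_add hf ?_, ?_⟩
    · unfold COV_D
      rw [Fintype.mem_piFinset]
      exact hc1
    · intro i
      have : (f + (b - b')) i - (f + c) i = (b i - b' i) - c i := by
        simp only [Pi.add_apply, Pi.sub_apply]
        ring
      rw [this]
      exact hc2 i

end H947DS
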